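import Pool.Agent.H20.MTA.SIEVEfix

/-! # Project MTA: the sieve theorem -/

set_option autoImplicit false

namespace MTA
open Finset

theorem SIEVE_logpow (C : ℝ) (k : ℕ) {δ : ℝ} (hδ : 0 < δ) :
    ∀ᶠ x : ℝ in Filter.atTop, C * (Real.log x) ^ k ≤ x ^ δ := by
  have h := isLittleO_log_rpow_rpow_atTop (k : ℝ) hδ
  have h2 := h.def (c := 1 / (|C| + 1)) (by positivity)
  filter_upwards [h2, Filter.eventually_ge_atTop (1 : ℝ)] with x hx hx1
  have hl : 0 ≤ Real.log x := Real.log_nonneg hx1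
  have hx0 : 0 ≤ x := by linarith
  rw [Real.rpow_natCast, Real.norm_of_nonneg (pow_nonneg hl k),
    Real.norm_of_nonneg (Real.rpow_nonneg hx0 δ)] at hx
  have h3 : C * (Real.log x) ^ k ≤ (|C| + 1) * (Real.log x) ^ k :=
    mul_le_mul_of_nonneg_right ((le_abs_self C).trans (by linarith)) (by positivity)
  refine h3.trans ?_
  have h4 : (|C| + 1) * (Real.log x) ^ k ≤ (|C| + 1) * (1 / (|C| + 1) * x ^ δ) :=
    mul_le_mul_of_nonneg_left hx (by positivity)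
  refine h4.trans (le_of_eq ?_)
  field_simp

theorem SIEVE_Good_mono {B B' : ℕ} (h : B ≤ B') {x : ℝ} (hx : 1 ≤ Real.log x) (hG : Good B' x) :
    Good B x := by
  intro r _ hr χ h1 h2 h3
  exact hG r (hr.trans (pow_le_pow_right₀ hx h)) χ h1 h2 h3

theorem SIEVE_Irho_nonneg : 0 ≤ Irho :=
  MeasureTheory.integral_nonneg fun _ => rho_nonneg _

/-- the final comparison -/
theorem SIEVE_final {n m : ℕ} (hn : 1 ≤ n) {x L U Z c1 C0 Er Cd δ ε φ Wr I Λ : ℝ}
    (hx : 1 ≤ x) (hLx : L = Real.log x / 30) (hlog2 : 2 ≤ Real.log x)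
    (hU : 0 ≤ U) (hZ : 1 / 8 ≤ Z) (hc1 : 0 < c1) (hC0 : 0 < C0) (hCd : 0 ≤ Cd)
    (hI : 0 ≤ I) (hφ : 0 < φ) (hW : 0 < Wr)
    (hΛ : Λ = 240 * (m + 1) * (I + 1) / c1)
    (hmain : Λ * (φ / Wr) * L * U ≤ n * Z)
    (hEr : Er = x / (Real.log x) ^ (2 * n + 3))
    (hδ : δ = ε / (8 * (n + 1)))
    (h1 : 64 * φ / c1 ≤ Real.log x)
    (h2 : 64 * m * C0 * φ / c1 * (Real.log x) ^ (2 * n + 3) ≤ x ^ (11 / 15 : ℝ))
    (h3 : 64 * φ * Cd ^ (2 * (n + 1)) / c1 * (Real.log x) ^ (2 * n + 3) ≤ x ^ (ε / 2))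
    {N : ℝ} (hN : 0 ≤ N)
    (H : n * (c1 * x / φ * Z - 2 * ((1 + L) ^ (n + 1)) ^ 2 * Er) ≤
      n * (2 * Real.log x) * (((1 + L) ^ (n + 1) * (Cd * (x ^ 2) ^ δ) ^ (n + 1)) ^ 2) * N +
      m * (2 * Real.log x) * (x * I / Wr * U + C0 * (Real.exp (2 * L) ^ 2 * (1 + L) ^ (n + 1)) ^ 2)) :
    x ^ (1 - ε) ≤ N := by
  have hx0 : 0 < x := by linarith
  set ℓ := Real.log x with hℓ
  have hℓ0 : 0 < ℓ := by linarith
  have hn1 : (1 : ℝ) ≤ n := by exact_mod_cast hn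
  have hLle : 1 + L ≤ ℓ := by rw [hLx]; linarith
  have hL0 : 0 ≤ L := by rw [hLx]; positivity
  have hB : ((1 + L) ^ (n + 1)) ^ 2 ≤ ℓ ^ (2 * n + 2) := by
    rw [← pow_mul]
    have : (n + 1) * 2 = 2 * n + 2 := by ring
    rw [this]
    exact pow_le_pow_left₀ (by linarith) hLle _
  -- main term
  set M : ℝ := c1 * x / φ * Z with hM
  have hMlow : c1 * x / (8 * φ) ≤ M := by
    rw [hM]
    calc c1 * x / (8 * φ) = c1 * x / φ * (1 / 8) := by field_simp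
      _ ≤ _ := mul_le_mul_of_nonneg_left hZ (by positivity)
  -- (i)
  have e1 : 2 * ((1 + L) ^ (n + 1)) ^ 2 * Er ≤ M / 4 := by
    rw [hEr]
    have h5 : 2 * ((1 + L) ^ (n + 1)) ^ 2 * (x / ℓ ^ (2 * n + 3)) ≤ 2 * ℓ ^ (2 * n + 2) * (x / ℓ ^ (2 * n + 3)) :=
      mul_le_mul_of_nonneg_right (by linarith) (by positivity)
    have h6 : 2 * ℓ ^ (2 * n + 2) * (x / ℓ ^ (2 * n + 3)) = 2 * x / ℓ := by
      have : ℓ ^ (2 * n + 3) = ℓ ^ (2 * n + 2) * ℓ := by rw [← pow_succ]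
      rw [this]; field_simp
    have h7 : 2 * x / ℓ ≤ c1 * x / (8 * φ) / 4 := by
      rw [div_le_iff₀ hc1] at h1
      rw [div_div, div_le_div_iff₀ hℓ0 (by positivity)]
      nlinarith
    linarith
  -- (ii)
  have e2 : m * (2 * ℓ) * (x * I / Wr * U) ≤ n * M / 4 := by
    have h5 : m * (2 * ℓ) * (x * I / Wr * U) = 60 * m * I * x * (L * U / Wr) := by
      rw [hLx]; ring
    rw [h5]
    have hΛ0 : 0 < Λ := by rw [hΛ]; positivity
    have h6 : L * U / Wr ≤ n * Z / (Λ * φ) := by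
      rw [le_div_iff₀ (by positivity)]
      calc L * U / Wr * (Λ * φ) = Λ * (φ / Wr) * L * U := by ring
        _ ≤ _ := hmain
    have h7 : 60 * m * I * x * (L * U / Wr) ≤ 60 * m * I * x * (n * Z / (Λ * φ)) :=
      mul_le_mul_of_nonneg_left h6 (by positivity)
    refine h7.trans ?_
    have h8 : 60 * m * I / Λ ≤ c1 / 4 := by
      rw [div_le_iff₀ hΛ0, hΛ]
      have : c1 / 4 * (240 * (↑m + 1) * (I + 1) / c1) = 60 * (m + 1) * (I + 1) := by
        field_simp; ring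
      rw [this]
      have hm0 : (0 : ℝ) ≤ m := Nat.cast_nonneg m
      nlinarith
    have hnZ : 0 ≤ n * Z * x / φ := by
      have : 0 ≤ Z := by linarith
      positivity
    calc 60 * m * I * x * (n * Z / (Λ * φ)) = (60 * m * I / Λ) * (n * Z * x / φ) := by
          field_simp
      _ ≤ (c1 / 4) * (n * Z * x / φ) := mul_le_mul_of_nonneg_right h8 hnZ
      _ = _ := by rw [hM]; ring
  -- (iii)
  have e3 : m * (2 * ℓ) * (C0 * (Real.exp (2 * L) ^ 2 * (1 + L) ^ (n + 1)) ^ 2) ≤ n * M / 4 := by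
    have hexp : (Real.exp (2 * L) ^ 2) ^ 2 = x ^ (4 / 15 : ℝ) := by
      rw [← pow_mul, ← Real.exp_nat_mul, Real.rpow_def_of_pos hx0, hLx]
      congr 1
      push_cast
      ring
    have h5 : m * (2 * ℓ) * (C0 * (Real.exp (2 * L) ^ 2 * (1 + L) ^ (n + 1)) ^ 2) ≤
        m * (2 * ℓ) * (C0 * (x ^ (4 / 15 : ℝ) * ℓ ^ (2 * n + 2))) := by
      rw [mul_pow, hexp]
      refine mul_le_mul_of_nonneg_left ?_ (by positivity)
      refine mul_le_mul_of_nonneg_left ?_ hC0.le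
      exact mul_le_mul_of_nonneg_left hB (by positivity)
    refine h5.trans ?_
    have h6 : m * (2 * ℓ) * (C0 * (x ^ (4 / 15 : ℝ) * ℓ ^ (2 * n + 2))) =
        (c1 / (32 * φ)) * ((64 * m * C0 * φ / c1 * ℓ ^ (2 * n + 3)) * x ^ (4 / 15 : ℝ)) := by
      have : ℓ ^ (2 * n + 3) = ℓ ^ (2 * n + 2) * ℓ := by rw [← pow_succ]
      rw [this]
      field_simp
      ring
    rw [h6]
    have h7 : (64 * m * C0 * φ / c1 * ℓ ^ (2 * n + 3)) * x ^ (4 / 15 : ℝ) ≤ x := by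
      calc _ ≤ x ^ (11 / 15 : ℝ) * x ^ (4 / 15 : ℝ) :=
            mul_le_mul_of_nonneg_right h2 (by positivity)
        _ = x := by
            rw [← Real.rpow_add hx0]
            norm_num
    have h8 : (c1 / (32 * φ)) * ((64 * m * C0 * φ / c1 * ℓ ^ (2 * n + 3)) * x ^ (4 / 15 : ℝ)) ≤
        (c1 / (32 * φ)) * x := mul_le_mul_of_nonneg_left h7 (by positivity)
    refine h8.trans ?_
    have h9 : (c1 / (32 * φ)) * x = c1 * x / (8 * φ) / 4 := by field_simp; ring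
    rw [h9]
    have hM0 : 0 ≤ M := le_trans (by positivity) hMlow
    have h10 : 1 * M ≤ n * M := mul_le_mul_of_nonneg_right hn1 hM0
    clear_value M ℓ
    linarith
  -- combine
  have e4 : n * M / 4 ≤ n * (2 * ℓ) * (((1 + L) ^ (n + 1) * (Cd * (x ^ 2) ^ δ) ^ (n + 1)) ^ 2) * N := by
    have h5 : n * (M - M / 4) ≤ n * (M - 2 * ((1 + L) ^ (n + 1)) ^ 2 * Er) :=
      mul_le_mul_of_nonneg_left (by linarith) (by positivity)
    have h6 := h5.trans H
    rw [mul_add] at h6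
    linarith
  have hFm : ((1 + L) ^ (n + 1) * (Cd * (x ^ 2) ^ δ) ^ (n + 1)) ^ 2 ≤
      ℓ ^ (2 * n + 2) * (Cd ^ (2 * (n + 1)) * x ^ (ε / 2)) := by
    rw [mul_pow]
    refine mul_le_mul hB (le_of_eq ?_) (by positivity) (by positivity)
    rw [← pow_mul, mul_pow]
    have : (n + 1) * 2 = 2 * (n + 1) := by ring
    rw [this]
    congr 1
    rw [← Real.rpow_natCast x 2, ← Real.rpow_mul hx0.le, ← Real.rpow_natCast, ← Real.rpow_mul hx0.le, hδ]
    congr 1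
    push_cast
    field_simp
    ring
  have e5 : n * M / 4 ≤ n * (2 * ℓ) * (ℓ ^ (2 * n + 2) * (Cd ^ (2 * (n + 1)) * x ^ (ε / 2))) * N := by
    refine e4.trans ?_
    refine mul_le_mul_of_nonneg_right ?_ hN
    exact mul_le_mul_of_nonneg_left hFm (by positivity)
  have e6 : M / 4 ≤ (2 * ℓ) * (ℓ ^ (2 * n + 2) * (Cd ^ (2 * (n + 1)) * x ^ (ε / 2))) * N := by
    have hn0 : (0 : ℝ) < n := by linarith
    refine le_of_mul_le_mul_left ?_ hn0
    calc n * (M / 4) = n * M / 4 := by ring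
      _ ≤ _ := e5
      _ = _ := by ring
  have e7 : x ≤ x ^ ε * N := by
    have h5 : c1 * x / (8 * φ) / 4 ≤ (2 * ℓ) * (ℓ ^ (2 * n + 2) * (Cd ^ (2 * (n + 1)) * x ^ (ε / 2))) * N := by
      linarith
    have h6 : x ≤ (64 * φ * Cd ^ (2 * (n + 1)) / c1 * ℓ ^ (2 * n + 3)) * x ^ (ε / 2) * N := by
      have h7 : x = (32 * φ / c1) * (c1 * x / (8 * φ) / 4) := by field_simp; ring
      have h8 : (32 * φ / c1) * (c1 * x / (8 * φ) / 4) ≤ (32 * φ / c1) *
          ((2 * ℓ) * (ℓ ^ (2 * n + 2) * (Cd ^ (2 * (n + 1)) * x ^ (ε / 2))) * N) :=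
        mul_le_mul_of_nonneg_left h5 (by positivity)
      rw [← h7] at h8
      refine h8.trans (le_of_eq ?_)
      have : ℓ ^ (2 * n + 3) = ℓ ^ (2 * n + 2) * ℓ := by rw [← pow_succ]
      rw [this]
      field_simp
      ring
    refine h6.trans ?_
    have h7 : x ^ ε = x ^ (ε / 2) * x ^ (ε / 2) := by
      rw [← Real.rpow_add hx0]; congr 1; ring
    rw [h7]
    refine mul_le_mul_of_nonneg_right ?_ hN
    exact mul_le_mul_of_nonneg_right h3 (by positivity)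
  rw [Real.rpow_sub hx0, Real.rpow_one]
  rw [div_le_iff₀ (by positivity)]
  linarith

theorem SIEVE (hMODEL : S_MODEL) (hTRU : S_TRU) (hTRK : S_TRK) (hTRB : S_TRB) (hLAM : S_LAM)
    (hERR : S_ERR) (hCNT : S_CNT) (hDIV : S_DIV) (hFBD : S_FBD) (hCHE : S_CHE) (hREP : S_REP)
    (hBVT : S_BVT) : S_SIEVE := by
  classical
  obtain ⟨θ, hθ0, hθ1, hM⟩ := hMODEL
  obtain ⟨c1, C1, hc1, hC1, hCh⟩ := hCHE
  obtain ⟨C0, hC0, hTRU'⟩ := hTRU
  have hK1 : 1 ≤ ⌈30 / θ⌉₊ := Nat.one_le_ceil_iff.mpr (by positivity)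
  refine ⟨⌈30 / θ⌉₊, hK1, fun m => ?_⟩
  have hI := SIEVE_Irho_nonneg
  obtain ⟨n, hn, w0, hw0, hM2⟩ := hM (240 * (m + 1) * (Irho + 1) / c1) (by positivity)
  refine ⟨n, w0, fun c W b hT ε hε N => ?_⟩
  obtain ⟨L0, hM3⟩ := hM2 W hT.pos hT.small
  obtain ⟨Cd, hCd, hDIV'⟩ := hDIV (ε / (8 * (n + 1))) (by positivity)
  have hφ : (0 : ℝ) < W.totient := by exact_mod_cast Nat.totient_pos.mpr hT.pos
  have hWr : (0 : ℝ) < W := by exact_mod_cast hT.pos
  -- Bombieri-Vinogradov for each form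
  have hBV : ∀ k : Fin n, ∃ (B : ℕ) (x0 : ℝ), ∀ x : ℝ, x0 ≤ x → Good B x →
      ∑ q ∈ (Icc 1 ⌊x ^ (1 / 6 : ℝ)⌋₊).filter Squarefree,
        ((8 * (n + 2) ^ 2 : ℕ) : ℝ) ^ q.primeFactors.card * Emax (c k) x (c k * W * q) ≤
          x / (Real.log x) ^ (2 * n + 3) := fun k =>
    hBVT (2 * n + 3) (8 * (n + 2) ^ 2) (c k) (c k * W) (hT.cpos k)
      (Nat.mul_pos (hT.cpos k) hT.pos)
  choose BB xB hBB using hBV
  have hTH : ∀ k : Fin n, ∃ x0 : ℝ, ∀ x : ℝ, x0 ≤ x → c1 * (c k * x) ≤ TH (c k) x := by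
    intro k
    obtain ⟨x0, h⟩ := hCh (c k) (hT.cpos k)
    exact ⟨x0, fun x hx => (h x hx).1⟩
  choose xT hTH' using hTH
  set Bm : ℕ := ∑ k, BB k with hBm
  set cm : ℕ := ∑ k, c k + 1 with hcm
  have hcmle : ∀ i, c i ≤ cm := fun i =>
    (Finset.single_le_sum (f := c) (fun _ _ => Nat.zero_le _) (Finset.mem_univ i)).trans (Nat.le_succ _)
  -- eventual conditions
  have hev : ∀ᶠ x : ℝ in Filter.atTop,
      (1 ≤ x ∧ 2 ≤ Real.log x ∧ L0 ≤ Real.log x / 30 ∧ 9 * (cm : ℝ) ≤ x ∧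
        8 * Real.exp (2 * (Real.log x / 30)) < x) ∧
      (∀ k, xB k ≤ x) ∧ (∀ k, xT k ≤ x) ∧
      64 * (W.totient : ℝ) / c1 ≤ Real.log x ∧
      64 * m * C0 * (W.totient : ℝ) / c1 * (Real.log x) ^ (2 * n + 3) ≤ x ^ (11 / 15 : ℝ) ∧
      64 * (W.totient : ℝ) * Cd ^ (2 * (n + 1)) / c1 * (Real.log x) ^ (2 * n + 3) ≤ x ^ (ε / 2) := by
    have hlog := Real.tendsto_log_atTop
    have h8 : ∀ᶠ x : ℝ in Filter.atTop, 8 * Real.exp (2 * (Real.log x / 30)) < x := by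
      filter_upwards [Filter.eventually_gt_atTop (1 : ℝ),
        hlog.eventually_gt_atTop (30 / 28 * Real.log 8)] with x hx1 hx
      have hx0 : 0 < x := by linarith
      have : 8 * Real.exp (2 * (Real.log x / 30)) =
          Real.exp (Real.log 8 + 2 * (Real.log x / 30)) := by
        rw [Real.exp_add, Real.exp_log (by norm_num)]
      rw [this]
      calc Real.exp (Real.log 8 + 2 * (Real.log x / 30)) < Real.exp (Real.log x) := by
            apply Real.exp_lt_exp.mpr; linarith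
        _ = x := Real.exp_log hx0
    filter_upwards [Filter.eventually_ge_atTop (1 : ℝ), hlog.eventually_ge_atTop 2,
      hlog.eventually_ge_atTop (30 * L0), Filter.eventually_ge_atTop (9 * (cm : ℝ)), h8,
      Filter.eventually_all.mpr (fun k => Filter.eventually_ge_atTop (xB k)),
      Filter.eventually_all.mpr (fun k => Filter.eventually_ge_atTop (xT k)),
      hlog.eventually_ge_atTop (64 * (W.totient : ℝ) / c1),
      SIEVE_logpow (64 * m * C0 * (W.totient : ℝ) / c1) (2 * n + 3) (δ := 11 / 15) (by norm_num),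
      SIEVE_logpow (64 * (W.totient : ℝ) * Cd ^ (2 * (n + 1)) / c1) (2 * n + 3) (δ := ε / 2)
        (by positivity)] with x a1 a2 a3 a4 a5 a6 a7 a8 a9 a10
    exact ⟨⟨a1, a2, by linarith, a4, a5⟩, a6, a7, a8, a9, a10⟩
  obtain ⟨X0, hX0⟩ := Filter.eventually_atTop.mp hev
  obtain ⟨x, hxN, hGood⟩ := hREP Bm (max N X0)
  obtain ⟨⟨hx1, hlog2, hL0, hxcm, hY⟩, hxB, hxT, hc, hd, he⟩ := hX0 x ((le_max_right _ _).trans hxN)
  refine ⟨x, (le_max_left _ _).trans hxN, ?_⟩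
  have hx0 : 0 < x := by linarith
  obtain ⟨V, α, hV1, hV2, hα, U, Z, hU0, hZ8, hUU, hZZ, hmain⟩ := hM3 (Real.log x / 30) hL0
  have hEr : ∀ k, ∑ q ∈ (Icc 1 ⌊Real.exp (5 * (Real.log x / 30))⌋₊).filter Squarefree,
      ((8 * (n + 2) ^ 2 : ℕ) : ℝ) ^ q.primeFactors.card * Emax (c k) x (c k * W * q) ≤
        x / (Real.log x) ^ (2 * n + 3) := by
    intro k
    have h1 := hBB k x (hxB k) (SIEVE_Good_mono
      (Finset.single_le_sum (f := BB) (fun _ _ => Nat.zero_le _) (Finset.mem_univ k))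
      (by linarith) hGood)
    have h2 : Real.exp (5 * (Real.log x / 30)) = x ^ (1 / 6 : ℝ) := by
      rw [Real.rpow_def_of_pos hx0]; congr 1; ring
    rw [h2]
    exact h1
  have H := SIEVE_fix hTRK hTRB hLAM hERR hCNT hFBD hC0 hT hw0 (x := x) (L := Real.log x / 30)
    (θ := θ) (V := V) (α := α) (U := U) (Z := Z) (c1 := c1) (Er := x / (Real.log x) ^ (2 * n + 3))
    (Cd := Cd) (δ := ε / (8 * (n + 1))) m cm
    (fun Y x l hx => hTRU' n w0 c W b hT Y x l hx) hcmle (Nat.le_add_left _ _) hx1 (by positivity)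
    hθ0.le hθ1 hα hY hxcm hI (by linarith) hc1.le hCd.le (by positivity) hUU hZZ
    (fun k => hTH' k x (hxT k)) hEr hDIV'
  have hfin := SIEVE_final (m := m) hn hx1 rfl hlog2 hU0 hZ8 hc1 hC0 hCd.le hI hφ hWr rfl hmain rfl rfl
    hc hd he (Nat.cast_nonneg _) H
  refine hfin.trans ?_
  rw [Nat.cast_le]
  refine Finset.card_le_card ?_
  intro t ht
  unfold SIEVE_G at ht
  rw [Finset.mem_filter] at ht
  obtain ⟨htT, hrough, hw, hcard⟩ := ht
  have h1 := SIEVE_mem_TT hx0.le htT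
  rw [Finset.mem_filter]
  have ht0 : (0 : ℝ) < t := by exact_mod_cast h1.1
  refine ⟨?_, ?_, h1.2.2, ?_, ?_⟩
  · unfold TT at htT
    exact (Finset.mem_filter.mp htT).1
  · by_contra hlt
    rw [not_le] at hlt
    apply hw
    unfold wt
    apply rho_zero
    have h2 : Real.log (t / x) ≤ Real.log (1 / 8) := by
      apply Real.log_le_log (by positivity)
      rw [div_le_iff₀ hx0]
      linarith
    have h3 : Real.log (1 / 8 : ℝ) ≤ -2 := by
      rw [show (1 / 8 : ℝ) = (2 ^ 3)⁻¹ by norm_num, Real.log_inv, Real.log_pow]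
      have := Real.log_two_gt_d9
      push_cast
      linarith
    rw [abs_of_nonpos (by linarith)]
    linarith
  · intro p hp
    have hpp := Nat.prime_of_mem_primeFactors hp
    have hpt := Nat.dvd_of_mem_primeFactors hp
    have hpW : ¬ p ∣ W := by
      intro hpW
      have h2 : p ∣ b := by
        have := (h1.2.2.of_dvd hpW)
        exact (this.dvd_iff (dvd_refl p)).mp hpt
      have h3 : p ∣ Nat.gcd b W := Nat.dvd_gcd h2 hpW
      rw [hT.cop0] at h3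
      exact hpp.one_lt.ne' (Nat.dvd_one.mp h3)
    have hnot : p ∉ PP W (Real.exp (θ * (Real.log x / 30))) := fun h => hrough p h hpt
    unfold PP at hnot
    rw [Finset.mem_filter, Finset.mem_Icc] at hnot
    have hfl : ⌊Real.exp (θ * (Real.log x / 30))⌋₊ < p := by
      by_contra hcon
      rw [not_lt] at hcon
      exact hnot ⟨⟨hpp.two_le, hcon⟩, hpp, hpW⟩
    have h4 : Real.exp (θ * (Real.log x / 30)) < p := (Nat.floor_lt (Real.exp_pos _).le).mp hfl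
    refine le_trans ?_ h4.le
    rw [Real.rpow_def_of_pos hx0]
    apply Real.exp_le_exp.mpr
    have h5 : (1 / ((⌈30 / θ⌉₊ : ℕ) : ℝ)) ≤ θ / 30 := by
      have h6 : 30 / θ ≤ (⌈30 / θ⌉₊ : ℝ) := Nat.le_ceil _
      rw [div_le_iff₀ (by positivity)]
      rw [div_le_iff₀ hθ0] at h6
      linarith
    have hl0 : 0 ≤ Real.log x := by linarith
    calc Real.log x * (1 / ((⌈30 / θ⌉₊ : ℕ) : ℝ)) ≤ Real.log x * (θ / 30) :=
          mul_le_mul_of_nonneg_left h5 hl0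
      _ = _ := by ring
  · convert hcard

end MTA
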