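import Pool.Agent.H18.MTA.TENS
import Pool.Agent.H18.MTA.QU
import Pool.Agent.H5.MTA.MONO
import Pool.Agent.H7.MTA.SUMU
import Pool.Agent.H1.MTA.CKL
import Pool.Agent.H7.MTA.COPR
import Pool.Agent.H7.MTA.YKL
import Pool.Agent.H1.MTA.WS1
import Pool.Agent.H1.MTA.WS2
import Pool.Agent.H22.MTA.WSUM
import Pool.Agent.H47.MTA.LOW
import Pool.Agent.H48.MTA.CBU
import Pool.Agent.H47.MTA.BSUM
import Pool.Agent.H87.MTA.PHIN
import Pool.Agent.H48.MTA.BAD
import Pool.Agent.H79.MTA.MSUM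
import Pool.Agent.H87.MTA.A123
import Pool.Agent.H95.MTA.MERT
import Pool.Agent.H48.MTA.MODEL
import Pool.Agent.H70.MTA.EXC
import Pool.Agent.H70.MTA.CLS
import Pool.Agent.H46.MTA.RES
import Pool.Agent.H87.MTA.CLSK
import Pool.Agent.H80.MTA.TRU
import Pool.Agent.H80.MTA.TRK
import Pool.Agent.H33.MTA.TRB
import Pool.Agent.H22.MTA.LAM
import Pool.Agent.H79.MTA.ERR
import Pool.Agent.H50.MTA.CNT
import Pool.Agent.H50.MTA.DIV
import Pool.Agent.H47.MTA.FBD
import Pool.Agent.H47.MTA.CHE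
import Pool.Agent.H4.MTA.REPP
import Pool.Agent.H85.MTA.LUP
import Pool.Agent.H85.MTA.ZUP
import Pool.Agent.H85.MTA.LIP
import Pool.Agent.H47.MTA.REP
import Pool.Agent.H66.MTA.LBD
import Pool.Agent.H80.MTA.FJ
import Pool.Agent.H92.MTA.FOUR
import Pool.Agent.H47.MTA.SWF
import Pool.Agent.H28.MTA.SW
import Pool.Agent.H22.MTA.VAU
import Pool.Agent.H4.MTA.TI
import Pool.Agent.H65.MTA.LSG
import Pool.Agent.H70.MTA.LSA
import Pool.Agent.H65.MTA.GAU
import Pool.Agent.H70.MTA.LS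
import Pool.Agent.H70.MTA.TIB
import Pool.Agent.H22.MTA.RHOF
import Pool.Agent.H65.MTA.TAU2
import Pool.Agent.H66.MTA.TII
import Pool.Agent.H28.MTA.LARGE
import Pool.Agent.H92.MTA.CHAR
import Pool.Agent.H85.MTA.THPSI
import Pool.Agent.H92.MTA.PRIMV
import Pool.Agent.H92.MTA.REARR
import Pool.Agent.H33.MTA.BV
import Pool.Agent.H95.MTA.BVT
import Pool.Agent.H20.MTA.SIEVE
import Pool.Agent.H46.MTA.TU1
import Pool.Agent.H95.MTA.TU2
import Pool.Agent.H83.MTA.TUP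
import Pool.Agent.H83.MTA.GM
import Pool.Agent.H83.MTA.FIN
import Pool.Agent.H22.MTA.FINAL

/-! # Project MTA: assembly of all modules -/

set_option autoImplicit false

namespace MTA

theorem all_TENS : S_TENS := MTA.TENS

theorem all_CHB : S_CHB := MTA.CHB

theorem all_COMP : S_COMP := MTA.COMP

theorem all_QU : S_QU := MTA.QU (all_TENS) (all_CHB) (all_COMP)

theorem all_QK : S_QK := MTA.QK (all_TENS) (all_CHB) (all_COMP)

theorem all_QB : S_QB := MTA.QB (all_TENS) (all_CHB) (all_COMP)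

theorem all_MONO : S_MONO := MTA.MONO

theorem all_SUMU : S_SUMU := MTA.SUMU

theorem all_CKL : S_CKL := MTA.CKL

theorem all_COPR : S_COPR := MTA.COPR

theorem all_YKL : S_YKL := MTA.YKL (all_COPR)

theorem all_WS1 : S_WS1 := MTA.WS1

theorem all_WS2 : S_WS2 := MTA.WS2

theorem all_WSUM : S_WSUM := MTA.WSUM (all_WS1) (all_WS2)

theorem all_LOW : S_LOW := MTA.LOW (all_QK) (all_CKL) (all_YKL) (all_WSUM) (all_MONO)

theorem all_CBU : S_CBU := MTA.CBU

theorem all_BSUM : S_BSUM := MTA.BSUM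

theorem all_PHIN : S_PHIN := MTA.PHIN

theorem all_BAD : S_BAD := MTA.BAD (all_QB) (all_CBU) (all_BSUM) (all_PHIN)

theorem all_MSUM : S_MSUM := MTA.MSUM

theorem all_A123 : S_A123 := MTA.A123

theorem all_MERT : S_MERT := MTA.MERT

theorem all_MODEL : S_MODEL := MTA.MODEL (all_QU) (all_SUMU) (all_LOW) (all_BAD) (all_MSUM) (all_A123) (all_MERT)

theorem all_EXC : S_EXC := MTA.EXC

theorem all_CLS : S_CLS := MTA.CLS (all_EXC)

theorem all_RES : S_RES := MTA.RES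

theorem all_CLSK : S_CLSK := MTA.CLSK (all_CLS)

theorem all_TRU : S_TRU := MTA.TRU (all_CLS) (all_RES) (all_EXC)

theorem all_TRK : S_TRK := MTA.TRK (all_CLSK) (all_EXC)

theorem all_TRB : S_TRB := MTA.TRB (all_CLSK) (all_EXC)

theorem all_LAM : S_LAM := MTA.LAM

theorem all_ERR : S_ERR := MTA.ERR

theorem all_CNT : S_CNT := MTA.CNT

theorem all_DIV : S_DIV := MTA.DIV

theorem all_FBD : S_FBD := MTA.FBD (all_EXC)

theorem all_CHE : S_CHE := MTA.CHE

theorem all_REPP : S_REPP := MTA.REPP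

theorem all_LUP : S_LUP := MTA.LUP

theorem all_ZUP : S_ZUP := MTA.ZUP

theorem all_LIP : S_LIP := MTA.LIP (all_LUP)

theorem all_REP : S_REP := MTA.REP (all_REPP) (all_LUP) (all_ZUP) (all_LIP)

theorem all_LBD : S_LBD := MTA.LBD (all_LUP) (all_ZUP) (all_LIP)

theorem all_FJ : S_FJ := MTA.FJ (all_LUP)

theorem all_FOUR : S_FOUR := MTA.FOUR

theorem all_SWF : S_SWF := MTA.SWF (all_FOUR)

theorem all_SW : S_SW := MTA.SW (all_LBD) (all_FJ) (all_SWF)

theorem all_VAU : S_VAU := MTA.VAU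

theorem all_TI : S_TI := MTA.TI

theorem all_LSG : S_LSG := MTA.LSG

theorem all_LSA : S_LSA := MTA.LSA (all_LSG)

theorem all_GAU : S_GAU := MTA.GAU

theorem all_LS : S_LS := MTA.LS (all_LSA) (all_GAU)

theorem all_TIB : S_TIB := MTA.TIB (all_LS)

theorem all_RHOF : S_RHOF := MTA.RHOF (all_FOUR)

theorem all_TAU2 : S_TAU2 := MTA.TAU2

theorem all_TII : S_TII := MTA.TIIthm (all_TIB) (all_RHOF) (all_TAU2)

theorem all_LARGE : S_LARGE := MTA.LARGE (all_VAU) (all_TI) (all_TII)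

theorem all_CHAR : S_CHAR := MTA.CHAR

theorem all_THPSI : S_THPSI := MTA.THPSI

theorem all_PRIMV : S_PRIMV := MTA.PRIMV

theorem all_REARR : S_REARR := MTA.REARR

theorem all_BV : S_BV := MTA.BV (all_SW) (all_LARGE) (all_CHAR) (all_THPSI) (all_PRIMV) (all_REARR)

theorem all_BVT : S_BVT := MTA.BVT (all_BV) (all_CHE) (all_MERT)

theorem all_SIEVE : S_SIEVE := MTA.SIEVE (all_MODEL) (all_TRU) (all_TRK) (all_TRB) (all_LAM) (all_ERR) (all_CNT) (all_DIV) (all_FBD) (all_CHE) (all_REP) (all_BVT)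

theorem all_TU1 : S_TU1 := MTA.TU1

theorem all_TU2 : S_TU2 := MTA.TU2 (all_TU1)

theorem all_TUP : S_TUP := MTA.TUP (all_TU2)

theorem all_GM : S_GM := MTA.GM

theorem all_FIN : S_FIN := MTA.FIN (all_SIEVE) (all_TUP) (all_GM)

theorem all_FINAL : S_FINAL := MTA.FINAL (all_FIN)

end MTA
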