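import Pool.Agent.H20.MT.Stmts
import Pool.Agent.H20.MT.Rho

/-! # Project MTA: combinatorial part of the sieve theorem -/

set_option autoImplicit false

namespace MTA
open Finset

theorem hh_succ {n : ℕ} (c : Fin n → ℕ) (k : Fin n) (t : ℕ) : hh c k.succ t = c k * t + 1 := rfl

theorem th_nonneg (m : ℕ) : 0 ≤ th m := by
  unfold th
  split_ifs with h
  · exact Real.log_nonneg (by exact_mod_cast h.one_lt.le)
  · exact le_rfl

theorem wt_nonneg (x : ℝ) (t : ℕ) : 0 ≤ wt x t := rho_nonneg _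

theorem wt_le_one (x : ℝ) (t : ℕ) : wt x t ≤ 1 := rho_le_one _

/-- the set of good `t` -/
noncomputable def SIEVE_G {n : ℕ} (c : Fin n → ℕ) (W b : ℕ) (x z : ℝ) (m : ℕ) : Finset ℕ :=
  by classical exact
  (TT W b x).filter (fun t => (∀ p ∈ PP W z, ¬ p ∣ t) ∧ wt x t ≠ 0 ∧
    m ≤ (univ.filter (fun i : Fin n => (c i * t + 1).Prime)).card)

open Classical in
theorem SIEVE_comb {n : ℕ} {c : Fin n → ℕ} {W b : ℕ} {x Y z : ℝ} (l : Cfg (PP W Y) n → ℝ) (m : ℕ)
    {S a LM Fm : ℝ} (hLM0 : 0 ≤ LM)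
    (hU : ∑ t ∈ TT W b x, wt x t * (ff c l t) ^ 2 ≤ S)
    (hK : ∀ k : Fin n, a ≤ ∑ t ∈ (TT W b x).filter (fun t => ∀ p ∈ PP W z, ¬ p ∣ t),
      wt x t * th (hh c k.succ t) * (ff c l t) ^ 2)
    (hLM : ∀ t ∈ TT W b x, ∀ k : Fin n, th (hh c k.succ t) ≤ LM)
    (hF : ∀ t ∈ TT W b x, wt x t * (ff c l t) ^ 2 ≤ Fm) :
    n * a ≤ n * LM * Fm * (SIEVE_G c W b x z m).card + m * LM * S := by
  have h1 : (n : ℝ) * a ≤ ∑ k : Fin n, ∑ t ∈ (TT W b x).filter (fun t => ∀ p ∈ PP W z, ¬ p ∣ t),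
      wt x t * th (hh c k.succ t) * (ff c l t) ^ 2 := by
    calc (n : ℝ) * a = ∑ k : Fin n, a := by simp
      _ ≤ _ := Finset.sum_le_sum fun k _ => hK k
  rw [Finset.sum_comm] at h1
  have h2 : ∀ t ∈ (TT W b x).filter (fun t => ∀ p ∈ PP W z, ¬ p ∣ t),
      ∑ k : Fin n, wt x t * th (hh c k.succ t) * (ff c l t) ^ 2 ≤
      (if t ∈ SIEVE_G c W b x z m then n * LM * Fm else 0) + m * LM * (wt x t * (ff c l t) ^ 2) := by
    intro t ht
    rw [Finset.mem_filter] at ht
    have hFt : 0 ≤ wt x t * (ff c l t) ^ 2 := mul_nonneg (wt_nonneg _ _) (sq_nonneg _)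
    have e : ∑ k : Fin n, wt x t * th (hh c k.succ t) * (ff c l t) ^ 2 =
        (∑ k : Fin n, th (hh c k.succ t)) * (wt x t * (ff c l t) ^ 2) := by
      rw [Finset.sum_mul]
      refine Finset.sum_congr rfl fun k _ => by ring
    rw [e]
    have hsum : ∑ k : Fin n, th (hh c k.succ t) ≤
        (univ.filter (fun i : Fin n => (c i * t + 1).Prime)).card * LM := by
      calc ∑ k : Fin n, th (hh c k.succ t) ≤
          ∑ k : Fin n, (if (c k * t + 1).Prime then LM else 0) := by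
            refine Finset.sum_le_sum fun k _ => ?_
            by_cases hp : (c k * t + 1).Prime
            · rw [if_pos hp]; exact hLM t ht.1 k
            · rw [if_neg hp, hh_succ]; unfold th; rw [if_neg hp]
        _ = _ := by rw [← Finset.sum_filter, Finset.sum_const, nsmul_eq_mul]
    by_cases hG : t ∈ SIEVE_G c W b x z m
    · rw [if_pos hG]
      have h3 : (∑ k : Fin n, th (hh c k.succ t)) ≤ n * LM := by
        refine hsum.trans ?_
        refine mul_le_mul_of_nonneg_right ?_ hLM0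
        have := Finset.card_filter_le (univ : Finset (Fin n)) (fun i : Fin n => (c i * t + 1).Prime)
        rw [Finset.card_univ, Fintype.card_fin] at this
        exact_mod_cast this
      have h4 : (∑ k : Fin n, th (hh c k.succ t)) * (wt x t * (ff c l t) ^ 2) ≤ n * LM * Fm := by
        refine mul_le_mul h3 (hF t ht.1) hFt (by positivity)
      have h5 : 0 ≤ m * LM * (wt x t * (ff c l t) ^ 2) := by positivity
      linarith
    · rw [if_neg hG, zero_add]
      by_cases hw : wt x t = 0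
      · rw [hw]; simp
      · have hcard : (univ.filter (fun i : Fin n => (c i * t + 1).Prime)).card < m := by
          by_contra hcon
          rw [not_lt] at hcon
          apply hG
          unfold SIEVE_G
          rw [Finset.mem_filter]
          exact ⟨ht.1, ht.2, hw, by convert hcon⟩
        refine mul_le_mul_of_nonneg_right ?_ hFt
        refine hsum.trans (mul_le_mul_of_nonneg_right ?_ hLM0)
        exact_mod_cast hcard.le
  have h3 := h1.trans (Finset.sum_le_sum h2)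
  rw [Finset.sum_add_distrib] at h3
  have h4 : ∑ t ∈ (TT W b x).filter (fun t => ∀ p ∈ PP W z, ¬ p ∣ t),
      (if t ∈ SIEVE_G c W b x z m then n * LM * Fm else 0) =
      n * LM * Fm * (SIEVE_G c W b x z m).card := by
    rw [← Finset.sum_filter, Finset.sum_const, nsmul_eq_mul, mul_comm]
    congr 2
    refine congrArg Finset.card ?_
    ext t
    rw [Finset.mem_filter, Finset.mem_filter]
    constructor
    · rintro ⟨_, h⟩; exact h
    · intro h
      refine ⟨?_, h⟩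
      unfold SIEVE_G at h
      rw [Finset.mem_filter] at h
      exact ⟨h.1, h.2.1⟩
  have h5 : ∑ t ∈ (TT W b x).filter (fun t => ∀ p ∈ PP W z, ¬ p ∣ t),
      m * LM * (wt x t * (ff c l t) ^ 2) ≤ m * LM * S := by
    rw [← Finset.mul_sum]
    refine mul_le_mul_of_nonneg_left ?_ (by positivity)
    refine le_trans ?_ hU
    refine Finset.sum_le_sum_of_subset_of_nonneg (Finset.filter_subset _ _) ?_
    intro t _ _
    exact mul_nonneg (wt_nonneg _ _) (sq_nonneg _)
  rw [h4] at h3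
  linarith

theorem PP_subset {W : ℕ} {z Y : ℝ} (h : z ≤ Y) : PP W z ⊆ PP W Y := by
  intro p hp
  unfold PP at hp ⊢
  rw [Finset.mem_filter, Finset.mem_Icc] at hp ⊢
  exact ⟨⟨hp.1.1, hp.1.2.trans (Nat.floor_le_floor h)⟩, hp.2⟩

open Classical in
theorem SIEVE_low (hTRK : S_TRK) (hTRB : S_TRB) {n w0 : ℕ} {c : Fin n → ℕ} {W b : ℕ}
    (hT : TupleOK n w0 c W b) {x Y z : ℝ} (hx : 1 ≤ x) (hY : 8 * Y < x) (hz : z ≤ Y)
    (l : Cfg (PP W Y) n → ℝ) (k : Fin n) :
    TH (c k) x / (c k * W).totient *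
        (qform (wK k.succ) l - ∑ p0 ∈ PP W z, qform (wKB k.succ p0) l) -
      ((∑ D, ∑ E, |l D| * |l E| * Emax (c k) x (c k * W * Nat.lcm (qq D) (qq E))) +
        ∑ p0 ∈ PP W z, ∑ D, ∑ E, |l D| * |l E| *
          Emax (c k) x (c k * W * Nat.lcm (Nat.lcm (qq D) (qq E)) p0))
    ≤ ∑ t ∈ (TT W b x).filter (fun t => ∀ p ∈ PP W z, ¬ p ∣ t),
        wt x t * th (hh c k.succ t) * (ff c l t) ^ 2 := by
  set F : ℕ → ℝ := fun t => wt x t * th (hh c k.succ t) * (ff c l t) ^ 2 with hFdef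
  have hF0 : ∀ t, 0 ≤ F t := fun t => mul_nonneg (mul_nonneg (wt_nonneg _ _) (th_nonneg _)) (sq_nonneg _)
  have h1 : ∑ t ∈ TT W b x, F t ≤ ∑ t ∈ (TT W b x).filter (fun t => ∀ p ∈ PP W z, ¬ p ∣ t), F t +
      ∑ p0 ∈ PP W z, ∑ t ∈ (TT W b x).filter (fun t => p0 ∣ t), F t := by
    rw [← Finset.sum_filter_add_sum_filter_not (TT W b x) (fun t => ∀ p ∈ PP W z, ¬ p ∣ t)]
    refine add_le_add le_rfl ?_
    have h2 : ∑ p0 ∈ PP W z, ∑ t ∈ (TT W b x).filter (fun t => p0 ∣ t), F t =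
        ∑ t ∈ TT W b x, ∑ p0 ∈ PP W z, if p0 ∣ t then F t else 0 := by
      rw [Finset.sum_comm]
      refine Finset.sum_congr rfl fun p0 _ => ?_
      rw [Finset.sum_filter]
    rw [h2]
    calc ∑ t ∈ (TT W b x).filter (fun t => ¬ ∀ p ∈ PP W z, ¬ p ∣ t), F t
        ≤ ∑ t ∈ (TT W b x).filter (fun t => ¬ ∀ p ∈ PP W z, ¬ p ∣ t),
            ∑ p0 ∈ PP W z, (if p0 ∣ t then F t else 0) := by
          refine Finset.sum_le_sum fun t ht => ?_
          rw [Finset.mem_filter] at ht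
          have ht2 := ht.2
          push Not at ht2
          obtain ⟨p, hp, hpt⟩ := ht2
          have := Finset.single_le_sum (f := fun p0 => if p0 ∣ t then F t else 0) (s := PP W z)
            (fun i _ => by split_ifs; exacts [hF0 t, le_rfl]) hp
          simpa [hpt] using this
      _ ≤ _ := by
          refine Finset.sum_le_sum_of_subset_of_nonneg (Finset.filter_subset _ _) ?_
          intro t _ _
          refine Finset.sum_nonneg fun p0 _ => ?_
          split_ifs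
          exacts [hF0 t, le_rfl]
  have hK := (abs_le.mp (hTRK n w0 c W b hT Y x l k hx hY)).1
  have hB : ∀ p0 ∈ PP W z, ∑ t ∈ (TT W b x).filter (fun t => p0 ∣ t), F t ≤
      TH (c k) x / (c k * W).totient * qform (wKB k.succ p0) l +
      ∑ D, ∑ E, |l D| * |l E| * Emax (c k) x (c k * W * Nat.lcm (Nat.lcm (qq D) (qq E)) p0) := by
    intro p0 hp0
    have := (abs_le.mp (hTRB n w0 c W b hT Y x l k ⟨p0, PP_subset hz hp0⟩ hx hY)).2
    linarith
  have hB2 := Finset.sum_le_sum hB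
  rw [Finset.sum_add_distrib, ← Finset.mul_sum] at hB2
  linarith

/-- `φ(ab) ≤ a φ(b)` -/
theorem SIEVE_totient_mul_le (a b : ℕ) : (a * b).totient ≤ a * b.totient := by
  rcases Nat.eq_zero_or_pos a with ha | ha
  · subst ha; simp
  rcases Nat.eq_zero_or_pos b with hb | hb
  · subst hb; simp
  have h1 := Nat.totient_eq_mul_prod_factors (a * b)
  have h2 := Nat.totient_eq_mul_prod_factors b
  have h3 : ∏ p ∈ (a * b).primeFactors, (1 - (p : ℚ)⁻¹) ≤ ∏ p ∈ b.primeFactors, (1 - (p : ℚ)⁻¹) := by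
    have hsub : b.primeFactors ⊆ (a * b).primeFactors :=
      Nat.primeFactors_mono (Dvd.intro_left a rfl) (by positivity)
    rw [← Finset.prod_sdiff hsub]
    have hle : ∀ p ∈ (a * b).primeFactors, 0 ≤ (1 - (p : ℚ)⁻¹) ∧ (1 - (p : ℚ)⁻¹) ≤ 1 := by
      intro p hp
      have hp1 : (1 : ℚ) ≤ p := by exact_mod_cast (Nat.prime_of_mem_primeFactors hp).one_lt.le
      constructor
      · have : (p : ℚ)⁻¹ ≤ 1 := inv_le_one_of_one_le₀ hp1
        linarith
      · have : 0 ≤ (p : ℚ)⁻¹ := by positivity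
        linarith
    have h4 : ∏ p ∈ (a * b).primeFactors \ b.primeFactors, (1 - (p : ℚ)⁻¹) ≤ 1 :=
      Finset.prod_le_one (fun p hp => (hle p (Finset.mem_sdiff.mp hp).1).1)
        (fun p hp => (hle p (Finset.mem_sdiff.mp hp).1).2)
    have h5 : 0 ≤ ∏ p ∈ b.primeFactors, (1 - (p : ℚ)⁻¹) :=
      Finset.prod_nonneg fun p hp => (hle p (hsub hp)).1
    nlinarith
  have h6 : (((a * b).totient : ℕ) : ℚ) ≤ ((a * b.totient : ℕ) : ℚ) := by
    rw [h1]
    push_cast
    rw [h2, mul_assoc]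
    have : (0 : ℚ) ≤ (a : ℚ) * b := by positivity
    calc (a : ℚ) * (b * ∏ p ∈ (a * b).primeFactors, (1 - (p : ℚ)⁻¹)) =
        ((a : ℚ) * b) * ∏ p ∈ (a * b).primeFactors, (1 - (p : ℚ)⁻¹) := by ring
      _ ≤ ((a : ℚ) * b) * ∏ p ∈ b.primeFactors, (1 - (p : ℚ)⁻¹) :=
        mul_le_mul_of_nonneg_left h3 this
      _ = _ := by ring
  exact_mod_cast h6

end MTA
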