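import Pool.Agent.H20.MTA.SIEVEcomb

/-! # Project MTA: the sieve theorem for fixed `x` -/

set_option autoImplicit false

namespace MTA
open Finset

theorem SIEVE_mem_TT {W b : ℕ} {x : ℝ} {t : ℕ} (hx : 0 ≤ x) (ht : t ∈ TT W b x) :
    1 ≤ t ∧ (t : ℝ) ≤ 8 * x ∧ t ≡ b [MOD W] := by
  unfold TT at ht
  rw [Finset.mem_filter, Finset.mem_Icc] at ht
  refine ⟨ht.1.1, ?_, ht.2⟩
  exact (Nat.le_floor_iff (by positivity)).mp ht.1.2

theorem SIEVE_hh_le {n : ℕ} {c : Fin n → ℕ} {cm : ℕ} (hcm : ∀ i, c i ≤ cm) (hcm1 : 1 ≤ cm)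
    {x : ℝ} (hx : 1 ≤ x) {t : ℕ} (ht : (t : ℝ) ≤ 8 * x) (k : Fin (n + 1)) :
    ((hh c k t : ℕ) : ℝ) ≤ 9 * cm * x := by
  have hcm1' : (1 : ℝ) ≤ cm := by exact_mod_cast hcm1
  have hcx : 1 ≤ (cm : ℝ) * x := by nlinarith
  refine Fin.cases ?_ (fun i => ?_) k
  · show (t : ℝ) ≤ _
    nlinarith
  · rw [hh_succ]
    push_cast
    have h1 : (c i : ℝ) ≤ cm := by exact_mod_cast hcm i
    have h2 : (c i : ℝ) * t ≤ cm * (8 * x) := mul_le_mul h1 ht (by positivity) (by positivity)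
    nlinarith

theorem SIEVE_hh_pos {n : ℕ} (c : Fin n → ℕ) {t : ℕ} (ht : 1 ≤ t) (k : Fin (n + 1)) :
    1 ≤ hh c k t := by
  refine Fin.cases ?_ (fun i => ?_) k
  · exact ht
  · rw [hh_succ]; omega

theorem SIEVE_suml (hCNT : S_CNT) {P : Finset ℕ} {n : ℕ} (hP : ∀ p ∈ P, p.Prime ∧ n + 1 ≤ p)
    {Q0 B : ℝ} (hQ0 : 1 ≤ Q0) (hB : 0 ≤ B) (l : Cfg P n → ℝ) (h1 : ∀ D, |l D| ≤ B)
    (h2 : ∀ D, l D ≠ 0 → (qq D : ℝ) ≤ Q0) : ∑ D, |l D| ≤ Q0 ^ 2 * B := by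
  classical
  have h3 : ∑ D, |l D| ≤ ∑ D : Cfg P n, if (qq D : ℝ) ≤ Q0 then B else 0 := by
    refine Finset.sum_le_sum fun D _ => ?_
    by_cases hD : (qq D : ℝ) ≤ Q0
    · rw [if_pos hD]; exact h1 D
    · rw [if_neg hD]
      have : l D = 0 := by
        by_contra hne
        exact hD (h2 D hne)
      rw [this, abs_zero]
  refine h3.trans ?_
  rw [← Finset.sum_filter, Finset.sum_const, nsmul_eq_mul]
  refine mul_le_mul_of_nonneg_right ?_ hB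
  have := hCNT P n Q0 hP hQ0
  convert this using 2

theorem SIEVE_fix (hTRK : S_TRK) (hTRB : S_TRB) (hLAM : S_LAM) (hERR : S_ERR) (hCNT : S_CNT)
    (hFBD : S_FBD) {C0 : ℝ} (hC0 : 0 < C0)
    {n w0 : ℕ} {c : Fin n → ℕ} {W b : ℕ} (hT : TupleOK n w0 c W b) (hw0 : n + 2 ≤ w0)
    {x L θ V α U Z c1 Er Cd δ : ℝ} (m cm : ℕ)
    (hTRU : ∀ (Y x : ℝ) (l : Cfg (PP W Y) n → ℝ), 1 ≤ x →
      |∑ t ∈ TT W b x, wt x t * (ff c l t) ^ 2 - x * Irho / W * qform (wU n) l| ≤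
      C0 * (∑ D, |l D|) ^ 2)
    (hcm : ∀ i, c i ≤ cm) (hcm1 : 1 ≤ cm)
    (hx : 1 ≤ x) (hL : 0 ≤ L) (hθ0 : 0 ≤ θ) (hθ1 : θ ≤ 1) (hα : 0 ≤ α) (hY : 8 * Real.exp (2 * L) < x)
    (hxcm : 9 * cm ≤ x) (hIr : 0 ≤ Irho) (hZ : 0 ≤ Z) (hc1 : 0 ≤ c1) (hCd : 0 ≤ Cd) (hδ : 0 ≤ δ)
    (hUU : qform (wU n) (lamv (yv (Real.exp L) (Real.exp L) V α :
      Cfg (PP W (Real.exp (2 * L))) n → ℝ)) ≤ U)
    (hZZ : ∀ k : Fin n, Z ≤
      qform (wK k.succ)
        (lamv (yv (Real.exp L) (Real.exp L) V α : Cfg (PP W (Real.exp (2 * L))) n → ℝ)) -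
      ∑ p0 ∈ PP W (Real.exp (θ * L)), qform (wKB k.succ p0)
        (lamv (yv (Real.exp L) (Real.exp L) V α : Cfg (PP W (Real.exp (2 * L))) n → ℝ)))
    (hTH : ∀ k, c1 * (c k * x) ≤ TH (c k) x)
    (hEr : ∀ k, ∑ q ∈ (Icc 1 ⌊Real.exp (5 * L)⌋₊).filter Squarefree,
      ((8 * (n + 2) ^ 2 : ℕ) : ℝ) ^ q.primeFactors.card * Emax (c k) x (c k * W * q) ≤ Er)
    (hDIV : ∀ m : ℕ, 1 ≤ m → (2 : ℝ) ^ m.primeFactors.card ≤ Cd * (m : ℝ) ^ δ) :
    n * (c1 * x / W.totient * Z - 2 * ((1 + L) ^ (n + 1)) ^ 2 * Er) ≤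
      n * (2 * Real.log x) * (((1 + L) ^ (n + 1) * (Cd * (x ^ 2) ^ δ) ^ (n + 1)) ^ 2) *
        (SIEVE_G c W b x (Real.exp (θ * L)) m).card +
      m * (2 * Real.log x) * (x * Irho / W * U + C0 * (Real.exp (2 * L) ^ 2 * (1 + L) ^ (n + 1)) ^ 2) := by
  classical
  set Y : ℝ := Real.exp (2 * L) with hYdef
  set z : ℝ := Real.exp (θ * L) with hzdef
  set l : Cfg (PP W Y) n → ℝ := lamv (yv (Real.exp L) (Real.exp L) V α : Cfg (PP W Y) n → ℝ) with hldef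
  set B : ℝ := (1 + L) ^ (n + 1) with hBdef
  have hB0 : 0 ≤ B := by positivity
  have hR1 : 1 ≤ Real.exp L := Real.one_le_exp hL
  have hlam := hLAM W n Y (Real.exp L) (Real.exp L) V α hT.pos hα hR1 hR1
  have hl1 : ∀ D, |l D| ≤ B := by
    intro D
    have := (hlam D).1
    rw [Real.log_exp] at this
    rw [hBdef, pow_succ']
    exact this
  have hQ : Real.exp L * Real.exp L = Y := by rw [hYdef, ← Real.exp_add]; ring_nf
  have hl2 : ∀ D, l D ≠ 0 → (qq D : ℝ) ≤ Y := by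
    intro D hD
    exact ((hlam D).2 hD).trans hQ.le
  have hY1 : 1 ≤ Y := Real.one_le_exp (by linarith)
  have hz1 : 1 ≤ z := Real.one_le_exp (by positivity)
  have hzY : z ≤ Y := Real.exp_le_exp.mpr (by nlinarith)
  have hWpos : (0 : ℝ) < W := by exact_mod_cast hT.pos
  have hφ : (0 : ℝ) < W.totient := by exact_mod_cast Nat.totient_pos.mpr hT.pos
  have hx0 : 0 < x := by linarith
  have hlogx : 0 ≤ Real.log x := Real.log_nonneg hx
  have hP : ∀ p ∈ PP W Y, p.Prime ∧ n + 1 ≤ p := by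
    intro p hp
    unfold PP at hp
    rw [Finset.mem_filter] at hp
    refine ⟨hp.2.1, ?_⟩
    by_contra hlt
    rw [not_le] at hlt
    exact hp.2.2 (hT.small p hp.2.1 (by omega))
  have hsum : ∑ D, |l D| ≤ Y ^ 2 * B := SIEVE_suml hCNT hP hY1 hB0 l hl1 hl2
  have hsum0 : 0 ≤ ∑ D, |l D| := Finset.sum_nonneg fun _ _ => abs_nonneg _
  -- upper bound
  have hUp : ∑ t ∈ TT W b x, wt x t * (ff c l t) ^ 2 ≤
      x * Irho / W * U + C0 * (Y ^ 2 * B) ^ 2 := by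
    have h1 := (abs_le.mp (hTRU Y x l hx)).2
    have h2 : x * Irho / W * qform (wU n) l ≤ x * Irho / W * U :=
      mul_le_mul_of_nonneg_left hUU (by positivity)
    have h3 : C0 * (∑ D, |l D|) ^ 2 ≤ C0 * (Y ^ 2 * B) ^ 2 :=
      mul_le_mul_of_nonneg_left (pow_le_pow_left₀ hsum0 hsum 2) hC0.le
    linarith
  -- lower bound
  have hLow : ∀ k : Fin n, c1 * x / W.totient * Z - 2 * B ^ 2 * Er ≤
      ∑ t ∈ (TT W b x).filter (fun t => ∀ p ∈ PP W z, ¬ p ∣ t),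
        wt x t * th (hh c k.succ t) * (ff c l t) ^ 2 := by
    intro k
    refine le_trans ?_ (SIEVE_low hTRK hTRB hT hx hY hzY l k)
    have hck : (0 : ℝ) < c k := by exact_mod_cast hT.cpos k
    have h1 : c1 * x / W.totient ≤ TH (c k) x / (c k * W).totient := by
      have hpos : (0 : ℝ) < ((c k * W).totient : ℝ) := by
        exact_mod_cast Nat.totient_pos.mpr (Nat.mul_pos (hT.cpos k) hT.pos)
      rw [div_le_div_iff₀ hφ hpos]
      have h2 : (((c k * W).totient : ℕ) : ℝ) ≤ c k * W.totient := by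
        exact_mod_cast SIEVE_totient_mul_le (c k) W
      calc c1 * x * ((c k * W).totient : ℝ) ≤ c1 * x * (c k * W.totient) :=
            mul_le_mul_of_nonneg_left h2 (by positivity)
        _ = (c1 * (c k * x)) * W.totient := by ring
        _ ≤ TH (c k) x * W.totient := mul_le_mul_of_nonneg_right (hTH k) hφ.le
    have h2 : c1 * x / W.totient * Z ≤ TH (c k) x / (c k * W).totient *
        (qform (wK k.succ) l - ∑ p0 ∈ PP W z, qform (wKB k.succ p0) l) :=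
      mul_le_mul h1 (hZZ k) hZ (le_trans (by positivity) h1)
    have h3 := hERR W n Y l B Y z (fun q => Emax (c k) x (c k * W * q)) hT.pos hB0 hY1 hz1 hzY
      (fun q => Emax_nonneg _ _ _) hl1 hl2
    have h4 : ∑ q ∈ (Icc 1 ⌊Y ^ 2 * z⌋₊).filter (fun q => Squarefree q ∧ q.Coprime W),
        ((8 * (n + 2) ^ 2 : ℕ) : ℝ) ^ q.primeFactors.card * Emax (c k) x (c k * W * q) ≤ Er := by
      refine le_trans ?_ (hEr k)
      refine Finset.sum_le_sum_of_subset_of_nonneg ?_ ?_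
      · intro q hq
        rw [Finset.mem_filter, Finset.mem_Icc] at hq ⊢
        refine ⟨⟨hq.1.1, hq.1.2.trans (Nat.floor_le_floor ?_)⟩, hq.2.1⟩
        rw [hYdef, hzdef, ← Real.exp_nat_mul, ← Real.exp_add]
        refine Real.exp_le_exp.mpr ?_
        push_cast
        nlinarith
      · intro q _ _
        exact mul_nonneg (by positivity) (Emax_nonneg _ _ _)
    have h5 : 2 * B ^ 2 * ∑ q ∈ (Icc 1 ⌊Y ^ 2 * z⌋₊).filter (fun q => Squarefree q ∧ q.Coprime W),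
        ((8 * (n + 2) ^ 2 : ℕ) : ℝ) ^ q.primeFactors.card * Emax (c k) x (c k * W * q) ≤
        2 * B ^ 2 * Er := mul_le_mul_of_nonneg_left h4 (by positivity)
    linarith
  -- pointwise bounds
  have hhle : ∀ t ∈ TT W b x, ∀ k : Fin (n + 1), ((hh c k t : ℕ) : ℝ) ≤ x ^ 2 := by
    intro t ht k
    have h1 := SIEVE_mem_TT hx0.le ht
    refine (SIEVE_hh_le hcm hcm1 hx h1.2.1 k).trans ?_
    rw [sq]
    exact mul_le_mul_of_nonneg_right hxcm hx0.le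
  have hLM : ∀ t ∈ TT W b x, ∀ k : Fin n, th (hh c k.succ t) ≤ 2 * Real.log x := by
    intro t ht k
    unfold th
    split_ifs with hp
    · have h1 : Real.log (hh c k.succ t : ℕ) ≤ Real.log (x ^ 2) :=
        Real.log_le_log (by exact_mod_cast hp.pos) (hhle t ht k.succ)
      rwa [Real.log_pow] at h1
    · positivity
  have hF : ∀ t ∈ TT W b x, wt x t * (ff c l t) ^ 2 ≤
      (B * (Cd * (x ^ 2) ^ δ) ^ (n + 1)) ^ 2 := by
    intro t ht
    have h1 := SIEVE_mem_TT hx0.le ht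
    have h2 := hFBD n w0 c W b hT Y B l t h1.1 hB0 hl1
    have h3 : ∏ k : Fin (n + 1), (2 : ℝ) ^ (hh c k t).primeFactors.card ≤
        (Cd * (x ^ 2) ^ δ) ^ (n + 1) := by
      calc ∏ k : Fin (n + 1), (2 : ℝ) ^ (hh c k t).primeFactors.card
          ≤ ∏ k : Fin (n + 1), (Cd * (x ^ 2) ^ δ) := by
            refine Finset.prod_le_prod (fun _ _ => by positivity) fun k _ => ?_
            refine (hDIV _ (SIEVE_hh_pos c h1.1 k)).trans ?_
            refine mul_le_mul_of_nonneg_left ?_ hCd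
            exact Real.rpow_le_rpow (by positivity) (hhle t ht k) hδ
        _ = _ := by rw [Finset.prod_const, Finset.card_univ, Fintype.card_fin]
    have h4 : |ff c l t| ≤ B * (Cd * (x ^ 2) ^ δ) ^ (n + 1) :=
      h2.trans (mul_le_mul_of_nonneg_left h3 hB0)
    have h5 : (ff c l t) ^ 2 ≤ (B * (Cd * (x ^ 2) ^ δ) ^ (n + 1)) ^ 2 := by
      rw [← sq_abs (ff c l t)]
      exact pow_le_pow_left₀ (abs_nonneg _) h4 2
    calc wt x t * (ff c l t) ^ 2 ≤ 1 * (ff c l t) ^ 2 :=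
          mul_le_mul_of_nonneg_right (wt_le_one _ _) (sq_nonneg _)
      _ ≤ _ := by rw [one_mul]; exact h5
  exact SIEVE_comb (z := z) l m (by positivity) hUp hLow hLM hF

end MTA
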